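import Mathlib

/-!
# The hat guessing game: definitions, upper bounds, tools
-/

set_option autoImplicit false

namespace Pool.Agent.Hat

/-- The vertices of `G` win the hat guessing game with `q` colours: `f v` is the guess of `v`, which
depends only on the colours of the neighbours of `v`; for every colouring some vertex guesses its
colour. -/
def Wins {V : Type} (G : SimpleGraph V) (q : ℕ) : Prop :=
  ∃ f : V → (V → Fin q) → Fin q,
    (∀ v c c', (∀ w, G.Adj v w → c w = c' w) → f v c = f v c') ∧ ∀ c, ∃ v, f v c = c v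

/-- The hat guessing number. -/
noncomputable def hatNumber {V : Type} (G : SimpleGraph V) : ℕ := sSup {q : ℕ | Wins G q}

/-- The complete multipartite graph with parts of sizes `a 0`, ..., `a (r - 1)`. -/
abbrev multipartite {r : ℕ} (a : Fin r → ℕ) : SimpleGraph (Σ i, Fin (a i)) :=
  SimpleGraph.completeMultipartiteGraph fun i => Fin (a i)

section upper

variable {V : Type} [Fintype V] [DecidableEq V] {G : SimpleGraph V} {q : ℕ}

/-- Every vertex is right at exactly one of `q` colourings. -/
theorem card_right (f : V → (V → Fin q) → Fin q)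
    (hf : ∀ v c c', (∀ w, G.Adj v w → c w = c' w) → f v c = f v c') (v : V) :
    (Finset.univ.filter fun c : V → Fin q => f v c = c v).card * q = q ^ Fintype.card V := by
  have hup : ∀ (c : V → Fin q) (a : Fin q), f v (Function.update c v a) = f v c := by
    intro c a
    refine hf v _ _ fun w hw => ?_
    rw [Function.update_of_ne hw.ne']
  have h1 : (Finset.univ.filter fun c : V → Fin q => f v c = c v).card * q =
      ((Finset.univ.filter fun c : V → Fin q => f v c = c v) ×ˢ
        (Finset.univ : Finset (Fin q))).card := by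
    rw [Finset.card_product, Finset.card_univ, Fintype.card_fin]
  have h2 : q ^ Fintype.card V = (Finset.univ : Finset (V → Fin q)).card := by
    rw [Finset.card_univ, Fintype.card_fun, Fintype.card_fin]
  rw [h1, h2]
  refine Finset.card_nbij' (fun p => Function.update p.1 v p.2)
    (fun c => (Function.update c v (f v c), c v)) ?_ ?_ ?_ ?_
  · intro p _
    exact Finset.mem_coe.2 (Finset.mem_univ _)
  · intro c _
    refine Finset.mem_coe.2 (Finset.mem_product.2 ⟨?_, Finset.mem_univ _⟩)
    rw [Finset.mem_filter]
    refine ⟨Finset.mem_univ _, ?_⟩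
    simp only
    rw [hup, Function.update_self]
  · rintro ⟨c, a⟩ hp
    have hp' := (Finset.mem_filter.1 (Finset.mem_product.1 (Finset.mem_coe.1 hp)).1).2
    simp only at hp' ⊢
    rw [hup, Function.update_self, Function.update_idem, hp', Function.update_eq_self]
  · intro c _
    simp only
    rw [Function.update_idem, Function.update_eq_self]

theorem sum_right (f : V → (V → Fin q) → Fin q)
    (hf : ∀ v c c', (∀ w, G.Adj v w → c w = c' w) → f v c = f v c') :
    (∑ c : V → Fin q, (Finset.univ.filter fun v => f v c = c v).card) * q =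
      Fintype.card V * q ^ Fintype.card V := by
  have h1 : (∑ c : V → Fin q, (Finset.univ.filter fun v => f v c = c v).card) =
      ∑ v : V, (Finset.univ.filter fun c : V → Fin q => f v c = c v).card := by
    simp only [Finset.card_filter]
    exact Finset.sum_comm
  rw [h1, Finset.sum_mul, Finset.sum_congr rfl fun v _ => card_right f hf v, Finset.sum_const,
    Finset.card_univ, smul_eq_mul]

theorem le_card (h : Wins G q) : q ≤ Fintype.card V := by
  obtain ⟨f, hf, hw⟩ := h
  rcases Nat.eq_zero_or_pos q with h0 | hq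
  · omega
  have h1 := sum_right f hf
  have h2 : q ^ Fintype.card V ≤
      ∑ c : V → Fin q, (Finset.univ.filter fun v => f v c = c v).card := by
    have h3 : q ^ Fintype.card V = ∑ _c : V → Fin q, 1 := by
      rw [Finset.sum_const, Finset.card_univ, Fintype.card_fun, Fintype.card_fin, smul_eq_mul,
        mul_one]
    rw [h3]
    refine Finset.sum_le_sum fun c _ => Finset.card_pos.2 ?_
    obtain ⟨v, hv⟩ := hw c
    exact ⟨v, Finset.mem_filter.2 ⟨Finset.mem_univ _, hv⟩⟩
  have h3 : q ^ Fintype.card V * q ≤ q ^ Fintype.card V * Fintype.card V := by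
    rw [mul_comm _ (Fintype.card V), ← h1]
    exact Nat.mul_le_mul_right _ h2
  exact Nat.le_of_mul_le_mul_left h3 (pow_pos hq _)

theorem lt_card (h : Wins G q) {u v : V} (huv : u ≠ v) (hadj : ¬ G.Adj u v) :
    q < Fintype.card V := by
  obtain ⟨f, hf, hw⟩ := h
  rcases Nat.eq_zero_or_pos q with h0 | hq
  · rw [h0]
    exact Fintype.card_pos_iff.2 ⟨u⟩
  have h1 := sum_right f hf
  have hex : ∃ c : V → Fin q, f u c = c u ∧ f v c = c v := by
    let c₀ : V → Fin q := fun _ => ⟨0, hq⟩
    refine ⟨Function.update (Function.update c₀ u (f u c₀)) v (f v c₀), ?_, ?_⟩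
    · rw [Function.update_of_ne huv, Function.update_self]
      refine hf u _ _ fun w hw' => ?_
      have hwv : w ≠ v := fun h => hadj (h ▸ hw')
      rw [Function.update_of_ne hwv, Function.update_of_ne hw'.ne']
    · rw [Function.update_self]
      refine hf v _ _ fun w hw' => ?_
      have hwu : w ≠ u := fun h => hadj ((h ▸ hw').symm)
      rw [Function.update_of_ne hw'.ne', Function.update_of_ne hwu]
  have h2 : q ^ Fintype.card V <
      ∑ c : V → Fin q, (Finset.univ.filter fun v => f v c = c v).card := by
    have h3 : q ^ Fintype.card V = ∑ _c : V → Fin q, 1 := by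
      rw [Finset.sum_const, Finset.card_univ, Fintype.card_fun, Fintype.card_fin, smul_eq_mul,
        mul_one]
    rw [h3]
    refine Finset.sum_lt_sum (fun c _ => Finset.card_pos.2 ?_) ?_
    · obtain ⟨v, hv⟩ := hw c
      exact ⟨v, Finset.mem_filter.2 ⟨Finset.mem_univ _, hv⟩⟩
    · obtain ⟨c, hc1, hc2⟩ := hex
      refine ⟨c, Finset.mem_univ _, ?_⟩
      exact Finset.one_lt_card.2 ⟨u, Finset.mem_filter.2 ⟨Finset.mem_univ _, hc1⟩, v,
        Finset.mem_filter.2 ⟨Finset.mem_univ _, hc2⟩, huv⟩
  have h3 : q ^ Fintype.card V * q < q ^ Fintype.card V * Fintype.card V := by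
    rw [mul_comm _ (Fintype.card V), ← h1]
    exact Nat.mul_lt_mul_of_pos_right h2 hq
  exact Nat.lt_of_mul_lt_mul_left h3

omit [DecidableEq V] in
theorem bddAbove : BddAbove {q : ℕ | Wins G q} := by
  classical
  exact ⟨Fintype.card V, fun q hq => le_card hq⟩

omit [Fintype V] [DecidableEq V] in
theorem wins_one [Nonempty V] : Wins G 1 :=
  ⟨fun _ _ => 0, fun _ _ _ _ => rfl, fun c => ⟨Classical.arbitrary V, Subsingleton.elim _ _⟩⟩

omit [DecidableEq V] in
theorem le_hat (h : Wins G q) : q ≤ hatNumber G := le_csSup bddAbove h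

omit [Fintype V] [DecidableEq V] in
theorem hat_le [Nonempty V] {m : ℕ} (h : ∀ q, Wins G q → q ≤ m) : hatNumber G ≤ m :=
  csSup_le ⟨1, wins_one⟩ h

end upper

section tools

/-- A strategy from the sets of colourings at which the vertices are right. -/
theorem wins_of_right {V : Type} [DecidableEq V] {G : SimpleGraph V} {q : ℕ} {C : Type}
    [Fintype C] (hC : Fintype.card C = q) (R : V → (V → C) → Prop)
    (h1 : ∀ v c, ∃ a, R v (Function.update c v a))
    (h1' : ∀ v c a b, R v (Function.update c v a) → R v (Function.update c v b) → a = b)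
    (h2 : ∀ v c c', c v = c' v → (∀ w, G.Adj v w → c w = c' w) → R v c → R v c')
    (h3 : ∀ c, ∃ v, R v c) : Wins G q := by
  classical
  obtain ⟨e⟩ : Nonempty (Fin q ≃ C) := ⟨(Fintype.equivFinOfCardEq hC).symm⟩
  choose g hg using h1
  refine ⟨fun v c => e.symm (g v fun w => e (c w)), ?_, ?_⟩
  · intro v c c' h
    refine congrArg e.symm (h1' v (fun w => e (c' w)) _ _ ?_ (hg _ _))
    refine h2 v _ _ ?_ ?_ (hg v fun w => e (c w))
    · rw [Function.update_self, Function.update_self]
    · intro w hw
      rw [Function.update_of_ne hw.ne', Function.update_of_ne hw.ne', h w hw]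
  · intro c
    obtain ⟨v, hv⟩ := h3 fun w => e (c w)
    refine ⟨v, ?_⟩
    rw [Equiv.symm_apply_eq]
    refine h1' v (fun w => e (c w)) _ _ (hg _ _) ?_
    rwa [Function.update_eq_self]

/-- Subgraphs. -/
theorem Wins.mono {V W : Type} {H : SimpleGraph W} {G : SimpleGraph V} {q : ℕ} (h : Wins H q)
    (e : W → V) (he : Function.Injective e) (hadj : ∀ x y, H.Adj x y → G.Adj (e x) (e y)) :
    Wins G q := by
  classical
  obtain ⟨f, hf, hw⟩ := h
  refine ⟨fun v c => if hv : ∃ x, e x = v then f hv.choose fun w => c (e w)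
    else if hq : 0 < q then ⟨0, hq⟩ else c v, ?_, ?_⟩
  · intro v c c' h
    by_cases hv : ∃ x, e x = v
    · simp only [dif_pos hv]
      refine hf _ _ _ fun y hy => h _ ?_
      have h1 := hadj _ _ hy
      rwa [hv.choose_spec] at h1
    · simp only [dif_neg hv]
      split_ifs with hq
      · rfl
      · exact absurd (c v).pos hq
  · intro c
    obtain ⟨x, hx⟩ := hw fun w => c (e w)
    have hv : ∃ y, e y = e x := ⟨x, rfl⟩
    refine ⟨e x, ?_⟩
    simp only [dif_pos hv]
    have h1 : hv.choose = x := he hv.choose_spec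
    rw [h1]
    exact hx

end tools

end Pool.Agent.Hat
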