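import Pool.Agent.Lib_helper65.Hat.Basic

/-!
# Complete graphs minus a matching
-/

set_option autoImplicit false

namespace Pool.Agent.Hat

/-- The vertices: `t` pairs and `n` single vertices. -/
abbrev PV (t n : ℕ) : Type := (Fin t ⊕ Fin t) ⊕ Fin n

/-- The part of a vertex. -/
def lab {t n : ℕ} : PV t n → Fin t ⊕ Fin n
  | .inl (.inl i) => .inl i
  | .inl (.inr i) => .inl i
  | .inr j => .inr j

/-- The complete graph minus `t` disjoint edges. -/
def pairGraph (t n : ℕ) : SimpleGraph (PV t n) := SimpleGraph.comap lab ⊤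

theorem pair_adj {t n : ℕ} (x y : PV t n) : (pairGraph t n).Adj x y ↔ lab x ≠ lab y := Iff.rfl

/-- The other vertex of the pair. -/
def mate {t n : ℕ} : PV t n → PV t n
  | .inl (.inl i) => .inl (.inr i)
  | .inl (.inr i) => .inl (.inl i)
  | .inr j => .inr j

theorem mate_mate {t n : ℕ} (x : PV t n) : mate (mate x) = x := by
  rcases x with (i | i) | j <;> rfl

theorem eq_or_mate {t n : ℕ} {x y : PV t n} (h : lab x = lab y) : y = x ∨ y = mate x := by
  rcases x with (i | i) | j <;> rcases y with (i' | i') | j' <;> simp_all [lab, mate]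

/-- The lines through the origin of a plane. -/
def fn {F : Type} [Field F] : Option F → F × F → F
  | none, s => s.1
  | some a, s => s.2 - a * s.1

theorem fn_add {F : Type} [Field F] (v : Option F) (s s' : F × F) :
    fn v (s + s') = fn v s + fn v s' := by
  rcases v with _ | a
  · rfl
  · simp only [fn, Prod.fst_add, Prod.snd_add]
    ring

theorem fn_smul {F : Type} [Field F] (v : Option F) (c : F) (s : F × F) :
    fn v (c • s) = c * fn v s := by
  rcases v with _ | a
  · rfl
  · simp only [fn, Prod.smul_fst, Prod.smul_snd, smul_eq_mul]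
    ring

theorem fn_zero {F : Type} [Field F] (v : Option F) : fn v (0 : F × F) = 0 := by
  have h := fn_smul v (0 : F) (0 : F × F)
  rw [zero_smul, zero_mul] at h
  exact h

theorem fn_sum {F ι : Type} [Field F] [Fintype ι] (v : Option F) (c : ι → F) (w : ι → F × F) :
    fn v (∑ i, c i • w i) = ∑ i, c i * fn v (w i) := by
  classical
  have h : ∀ s : Finset ι, fn v (∑ i ∈ s, c i • w i) = ∑ i ∈ s, c i * fn v (w i) := by
    intro s
    induction s using Finset.induction_on with
    | empty => rw [Finset.sum_empty, Finset.sum_empty, fn_zero]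
    | insert i s hi ih => rw [Finset.sum_insert hi, Finset.sum_insert hi, fn_add, fn_smul, ih]
  exact h _

theorem fn_cover {F : Type} [Field F] (s : F × F) : ∃ v, fn v s = 0 := by
  by_cases h : s.1 = 0
  · exact ⟨none, h⟩
  · refine ⟨some (s.2 / s.1), ?_⟩
    simp only [fn]
    rw [div_mul_cancel₀ _ h, sub_self]

theorem fn_dual {F : Type} [Field F] {v v' : Option F} (h : v ≠ v') :
    ∃ w, fn v w = 1 ∧ fn v' w = 0 := by
  rcases v with _ | a <;> rcases v' with _ | b
  · exact absurd rfl h
  · refine ⟨(1, b), rfl, ?_⟩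
    simp [fn]
  · refine ⟨(0, 1), ?_, rfl⟩
    simp [fn]
  · have hab : b - a ≠ 0 := by
      intro h0
      exact h (by rw [sub_eq_zero.1 h0])
    refine ⟨(1 / (b - a), b / (b - a)), ?_, ?_⟩
    · simp only [fn]
      field_simp
    · simp only [fn]
      ring

theorem fn_one {F : Type} [Field F] (v : Option F) : ∃ w, fn v w = 1 := by
  rcases v with _ | a
  · exact ⟨(1, 0), rfl⟩
  · refine ⟨(0, 1), ?_⟩
    simp [fn]

/-- Prime powers. -/
theorem wins_primePow {q t n : ℕ} (hq : IsPrimePow q) (h : 2 * t + n = q + 1) :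
    Wins (pairGraph t n) q := by
  classical
  rw [isPrimePow_nat_iff] at hq
  obtain ⟨p, m, hp, hm, rfl⟩ := hq
  have : Fact p.Prime := ⟨hp⟩
  let F : Type := GaloisField p m
  have hF : Nat.card F = p ^ m := GaloisField.card p m hm.ne'
  have : Fintype F := Fintype.ofFinite F
  have hFc : Fintype.card F = p ^ m := by rw [← Nat.card_eq_fintype_card, hF]
  obtain ⟨e⟩ : Nonempty (PV t n ≃ Option F) := by
    refine Fintype.card_eq.1 ?_
    rw [Fintype.card_option, hFc, Fintype.card_sum, Fintype.card_sum, Fintype.card_fin,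
      Fintype.card_fin]
    omega
  have hw : ∀ v : PV t n, ∃ w : F × F, fn (e v) w = 1 ∧ (mate v ≠ v → fn (e (mate v)) w = 0) := by
    intro v
    by_cases hv : mate v = v
    · obtain ⟨w, hw⟩ := fn_one (e v)
      exact ⟨w, hw, fun h => absurd hv h⟩
    · obtain ⟨w, hw, hw'⟩ := fn_dual (v := e v) (v' := e (mate v))
        fun h => hv (e.injective h).symm
      exact ⟨w, hw, fun _ => hw'⟩
  choose w hw1 hw0 using hw
  have hS : ∀ (v : PV t n) (c : PV t n → F),
      fn (e v) (∑ u, c u • w u) = c v + ∑ u ∈ Finset.univ.erase v, c u * fn (e v) (w u) := by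
    intro v c
    rw [fn_sum, ← Finset.add_sum_erase _ _ (Finset.mem_univ v), hw1, mul_one]
  refine wins_of_right hFc (fun v c => fn (e v) (∑ u, c u • w u) = 0) ?_ ?_ ?_ ?_
  · intro v c
    refine ⟨-∑ u ∈ Finset.univ.erase v, c u * fn (e v) (w u), ?_⟩
    rw [hS, Function.update_self, neg_add_eq_zero]
    refine Finset.sum_congr rfl fun u hu => ?_
    rw [Function.update_of_ne (Finset.ne_of_mem_erase hu)]
  · intro v c a b ha hb
    rw [hS, Function.update_self] at ha hb
    have h1 : ∑ u ∈ Finset.univ.erase v, Function.update c v a u * fn (e v) (w u) =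
        ∑ u ∈ Finset.univ.erase v, Function.update c v b u * fn (e v) (w u) := by
      refine Finset.sum_congr rfl fun u hu => ?_
      rw [Function.update_of_ne (Finset.ne_of_mem_erase hu),
        Function.update_of_ne (Finset.ne_of_mem_erase hu)]
    rw [h1] at ha
    exact add_right_cancel (ha.trans hb.symm)
  · intro v c c' hv hc hr
    rw [hS] at hr ⊢
    rw [← hv, ← hr]
    congr 1
    refine Finset.sum_congr rfl fun u hu => ?_
    by_cases hl : lab v = lab u
    · rcases eq_or_mate hl with h1 | h1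
      · exact absurd h1 (Finset.ne_of_mem_erase hu)
      · have h2 : mate u = v := by rw [h1, mate_mate]
        have h3 : fn (e v) (w u) = 0 := by
          have h4 := hw0 u (by rw [h2]; exact (Finset.ne_of_mem_erase hu).symm)
          rwa [h2] at h4
        rw [h3, mul_zero, mul_zero]
    · rw [hc u hl]
  · intro c
    obtain ⟨v, hv⟩ := fn_cover (∑ u, c u • w u)
    exact ⟨e.symm v, by rw [Equiv.apply_symm_apply]; exact hv⟩

theorem sum_upd_same {V C ι : Type} [DecidableEq V] [AddCommGroup C] [Fintype ι] (g : ι → V)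
    (hg : Function.Injective g) (c : V → C) (i : ι) (a : C) :
    ∑ j, Function.update c (g i) a (g j) = ∑ j, c (g j) - c (g i) + a := by
  classical
  rw [← Finset.add_sum_erase _ _ (Finset.mem_univ i), Function.update_self,
    ← Finset.add_sum_erase (Finset.univ : Finset ι) (fun j => c (g j)) (Finset.mem_univ i)]
  have h : ∑ j ∈ Finset.univ.erase i, Function.update c (g i) a (g j) =
      ∑ j ∈ Finset.univ.erase i, c (g j) := by
    refine Finset.sum_congr rfl fun j hj => ?_
    rw [Function.update_of_ne fun h => (Finset.ne_of_mem_erase hj) (hg h)]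
  rw [h]
  abel

theorem sum_upd_other {V C ι : Type} [DecidableEq V] [AddCommGroup C] [Fintype ι] (g : ι → V)
    (c : V → C) (v : V) (hv : ∀ j, g j ≠ v) (a : C) :
    ∑ j, Function.update c v a (g j) = ∑ j, c (g j) :=
  Finset.sum_congr rfl fun j _ => by rw [Function.update_of_ne (hv j)]

theorem card_few {q t : ℕ} (ht : t ^ 2 ≤ q) (hq : 0 < q) (a b : ZMod q) :
    2 * t ≤ (((Finset.univ : Finset (Fin t)).image (fun i : Fin t => a + ((i : ℕ) : ZMod q))) ∪
      ((Finset.univ : Finset (Fin t)).image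
        (fun i : Fin t => b + ((t * (i : ℕ) : ℕ) : ZMod q)))).card + 1 := by
  classical
  have : NeZero q := ⟨hq.ne'⟩
  have key : ∀ i j i' j' : Fin t, (((i : ℕ) + t * (j' : ℕ) : ℕ) : ZMod q) =
      (((i' : ℕ) + t * (j : ℕ) : ℕ) : ZMod q) → i = i' ∧ j = j' := by
    intro i j i' j' h
    have hlt : ∀ x y : Fin t, (x : ℕ) + t * (y : ℕ) < q := by
      intro x y
      have h1 := x.2
      have h2 := y.2
      have h3 : t * (y : ℕ) + t ≤ t ^ 2 := by
        have : (y : ℕ) + 1 ≤ t := h2
        calc t * (y : ℕ) + t = t * ((y : ℕ) + 1) := by ring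
          _ ≤ t * t := Nat.mul_le_mul_left _ this
          _ = t ^ 2 := by ring
      omega
    rw [ZMod.natCast_eq_natCast_iff', Nat.mod_eq_of_lt (hlt i j'),
      Nat.mod_eq_of_lt (hlt i' j)] at h
    have htpos : 0 < t := lt_of_le_of_lt (Nat.zero_le _) i.2
    have h1 : (i : ℕ) = (i' : ℕ) := by
      have h2 := congrArg (fun x => x % t) h
      simp only [Nat.add_mul_mod_self_left] at h2
      rwa [Nat.mod_eq_of_lt i.2, Nat.mod_eq_of_lt i'.2] at h2
    have h3 : (j' : ℕ) = (j : ℕ) := by
      rw [h1] at h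
      exact Nat.eq_of_mul_eq_mul_left htpos (Nat.add_left_cancel h)
    exact ⟨Fin.ext h1, Fin.ext h3.symm⟩
  have hA : ((Finset.univ : Finset (Fin t)).image
      (fun i : Fin t => a + ((i : ℕ) : ZMod q))).card = t := by
    rw [Finset.card_image_of_injective, Finset.card_univ, Fintype.card_fin]
    intro i i' h
    have h1 := add_left_cancel h
    refine (key i i i' i ?_).1
    rw [Nat.cast_add, Nat.cast_add, h1]
  have hB : ((Finset.univ : Finset (Fin t)).image
      (fun i : Fin t => b + ((t * (i : ℕ) : ℕ) : ZMod q))).card = t := by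
    rw [Finset.card_image_of_injective, Finset.card_univ, Fintype.card_fin]
    intro i i' h
    have h1 := add_left_cancel h
    refine (key i i' i i ?_).2.symm
    rw [Nat.cast_add, Nat.cast_add, h1]
  have hI : (((Finset.univ : Finset (Fin t)).image (fun i : Fin t => a + ((i : ℕ) : ZMod q))) ∩
      ((Finset.univ : Finset (Fin t)).image
        (fun i : Fin t => b + ((t * (i : ℕ) : ℕ) : ZMod q)))).card ≤ 1 := by
    rw [Finset.card_le_one]
    intro x hx y hy
    rw [Finset.mem_inter, Finset.mem_image, Finset.mem_image] at hx hy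
    obtain ⟨⟨i, -, hi⟩, ⟨j, -, hj⟩⟩ := hx
    obtain ⟨⟨i', -, hi'⟩, ⟨j', -, hj'⟩⟩ := hy
    have h1 : (((i : ℕ) + t * (j' : ℕ) : ℕ) : ZMod q) = (((i' : ℕ) + t * (j : ℕ) : ℕ) : ZMod q) := by
      have e1 : a + ((i : ℕ) : ZMod q) = b + ((t * (j : ℕ) : ℕ) : ZMod q) := hi.trans hj.symm
      have e2 : a + ((i' : ℕ) : ZMod q) = b + ((t * (j' : ℕ) : ℕ) : ZMod q) := hi'.trans hj'.symm
      rw [Nat.cast_add, Nat.cast_add]
      linear_combination e1 - e2
    rw [← hi, ← hi', (key i j i' j' h1).1]
  have h := Finset.card_union_add_card_inter ((Finset.univ : Finset (Fin t)).image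
    (fun i : Fin t => a + ((i : ℕ) : ZMod q))) ((Finset.univ : Finset (Fin t)).image
      (fun i : Fin t => b + ((t * (i : ℕ) : ℕ) : ZMod q)))
  rw [hA, hB] at h
  omega

theorem exists_enum {C : Type} [Fintype C] [DecidableEq C] [Nonempty C] (W : Finset C) (n : ℕ)
    (h : Fintype.card C ≤ W.card + n) : ∃ τ : Fin n → C, ∀ s, s ∉ W → ∃ j, τ j = s := by
  classical
  have h1 : Wᶜ.card ≤ n := by
    rw [Finset.card_compl]
    omega
  obtain ⟨x₀⟩ := ‹Nonempty C›
  let e := Wᶜ.equivFin
  refine ⟨fun j => if h : (j : ℕ) < Wᶜ.card then (e.symm ⟨j, h⟩ : C) else x₀, fun s hs => ?_⟩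
  have hs' : s ∈ Wᶜ := Finset.mem_compl.2 hs
  refine ⟨⟨(e ⟨s, hs'⟩ : ℕ), lt_of_lt_of_le (e ⟨s, hs'⟩).2 h1⟩, ?_⟩
  simp

/-- Few pairs. -/
theorem wins_few {q t n : ℕ} (h : 2 * t + n = q + 1) (ht : t ^ 2 ≤ q) (hq : 0 < q) :
    Wins (pairGraph t n) q := by
  classical
  have : NeZero q := ⟨hq.ne'⟩
  have hτ : ∀ a b : ZMod q, ∃ τ : Fin n → ZMod q, ∀ s,
      s ∉ ((Finset.univ : Finset (Fin t)).image (fun i : Fin t => a + ((i : ℕ) : ZMod q))) ∪
        ((Finset.univ : Finset (Fin t)).image (fun i : Fin t => b + ((t * (i : ℕ) : ℕ) : ZMod q))) →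
      ∃ j, τ j = s := by
    intro a b
    refine exists_enum _ n ?_
    have h1 := card_few ht hq a b
    rw [ZMod.card]
    omega
  choose τ hτ using hτ
  let g1 : Fin t → PV t n := fun j => .inl (.inl j)
  let g2 : Fin t → PV t n := fun j => .inl (.inr j)
  let g3 : Fin n → PV t n := fun j => .inr j
  have hg1 : Function.Injective g1 := fun i j h => Sum.inl.inj (Sum.inl.inj h)
  have hg2 : Function.Injective g2 := fun i j h => Sum.inr.inj (Sum.inl.inj h)
  have hg3 : Function.Injective g3 := fun i j h => Sum.inr.inj h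
  let R : PV t n → (PV t n → ZMod q) → Prop := fun v c =>
    match v with
    | .inl (.inl i) => (∑ j, c (g3 j)) = (∑ j, c (g1 j)) + ((i : ℕ) : ZMod q)
    | .inl (.inr i) => (∑ j, c (g3 j)) = (∑ j, c (g2 j)) + ((t * (i : ℕ) : ℕ) : ZMod q)
    | .inr j => (∑ j, c (g3 j)) = τ (∑ j, c (g1 j)) (∑ j, c (g2 j)) j
  have hR1 : ∀ i c, R (g1 i) c ↔ (∑ j, c (g3 j)) = (∑ j, c (g1 j)) + ((i : ℕ) : ZMod q) :=
    fun _ _ => Iff.rfl
  have hR2 : ∀ i c, R (g2 i) c ↔
      (∑ j, c (g3 j)) = (∑ j, c (g2 j)) + ((t * (i : ℕ) : ℕ) : ZMod q) := fun _ _ => Iff.rfl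
  have hR3 : ∀ i c, R (g3 i) c ↔
      (∑ j, c (g3 j)) = τ (∑ j, c (g1 j)) (∑ j, c (g2 j)) i := fun _ _ => Iff.rfl
  have u13 : ∀ i (c : PV t n → ZMod q) a, ∑ j, Function.update c (g1 i) a (g3 j) =
      ∑ j, c (g3 j) := fun i c a => sum_upd_other g3 c _ (fun j h => by cases h) a
  have u23 : ∀ i (c : PV t n → ZMod q) a, ∑ j, Function.update c (g2 i) a (g3 j) =
      ∑ j, c (g3 j) := fun i c a => sum_upd_other g3 c _ (fun j h => by cases h) a
  have u31 : ∀ i (c : PV t n → ZMod q) a, ∑ j, Function.update c (g3 i) a (g1 j) =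
      ∑ j, c (g1 j) := fun i c a => sum_upd_other g1 c _ (fun j h => by cases h) a
  have u32 : ∀ i (c : PV t n → ZMod q) a, ∑ j, Function.update c (g3 i) a (g2 j) =
      ∑ j, c (g2 j) := fun i c a => sum_upd_other g2 c _ (fun j h => by cases h) a
  have u11 := fun i (c : PV t n → ZMod q) a => sum_upd_same g1 hg1 c i a
  have u22 := fun i (c : PV t n → ZMod q) a => sum_upd_same g2 hg2 c i a
  have u33 := fun i (c : PV t n → ZMod q) a => sum_upd_same g3 hg3 c i a
  refine wins_of_right (C := ZMod q) (ZMod.card q) R ?_ ?_ ?_ ?_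
  · intro v c
    rcases v with (i | i) | i
    · refine ⟨(∑ j, c (g3 j)) - ((i : ℕ) : ZMod q) - ∑ j, c (g1 j) + c (g1 i), ?_⟩
      refine (hR1 i _).2 ?_
      rw [u13, u11]
      ring
    · refine ⟨(∑ j, c (g3 j)) - ((t * (i : ℕ) : ℕ) : ZMod q) - ∑ j, c (g2 j) + c (g2 i), ?_⟩
      refine (hR2 i _).2 ?_
      rw [u23, u22]
      ring
    · refine ⟨τ (∑ j, c (g1 j)) (∑ j, c (g2 j)) i - ∑ j, c (g3 j) + c (g3 i), ?_⟩
      refine (hR3 i _).2 ?_
      rw [u31, u32, u33]
      ring
  · intro v c a b ha hb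
    rcases v with (i | i) | i
    · have ha' := (hR1 i _).1 ha
      have hb' := (hR1 i _).1 hb
      rw [u13, u11] at ha' hb'
      linear_combination hb' - ha'
    · have ha' := (hR2 i _).1 ha
      have hb' := (hR2 i _).1 hb
      rw [u23, u22] at ha' hb'
      linear_combination hb' - ha'
    · have ha' := (hR3 i _).1 ha
      have hb' := (hR3 i _).1 hb
      rw [u31, u32, u33] at ha' hb'
      linear_combination ha' - hb'
  · intro v c c' hv hc hr
    rcases v with (i | i) | i
    · have h1 : ∀ j, c (g1 j) = c' (g1 j) := by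
        intro j
        by_cases hj : j = i
        · rw [hj]
          exact hv
        · exact hc _ fun h => hj (Sum.inl.inj h).symm
      have h3 : ∀ j, c (g3 j) = c' (g3 j) := fun j => hc _ fun h => by cases h
      refine (hR1 i _).2 ?_
      rw [← Finset.sum_congr rfl fun j _ => h1 j, ← Finset.sum_congr rfl fun j _ => h3 j]
      exact (hR1 i _).1 hr
    · have h1 : ∀ j, c (g2 j) = c' (g2 j) := by
        intro j
        by_cases hj : j = i
        · rw [hj]
          exact hv
        · exact hc _ fun h => hj (Sum.inl.inj h).symm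
      have h3 : ∀ j, c (g3 j) = c' (g3 j) := fun j => hc _ fun h => by cases h
      refine (hR2 i _).2 ?_
      rw [← Finset.sum_congr rfl fun j _ => h1 j, ← Finset.sum_congr rfl fun j _ => h3 j]
      exact (hR2 i _).1 hr
    · have h1 : c = c' := by
        funext u
        by_cases hu : lab (.inr i : PV t n) = lab u
        · rcases eq_or_mate hu with h2 | h2
          · rw [h2]
            exact hv
          · rw [h2]
            exact hv
        · exact hc u hu
      rw [← h1]
      exact hr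
  · intro c
    by_cases hm : (∑ j, c (g3 j)) ∈
        ((Finset.univ : Finset (Fin t)).image (fun i : Fin t => (∑ j, c (g1 j)) + ((i : ℕ) : ZMod q))) ∪
        ((Finset.univ : Finset (Fin t)).image
          (fun i : Fin t => (∑ j, c (g2 j)) + ((t * (i : ℕ) : ℕ) : ZMod q)))
    · rcases Finset.mem_union.1 hm with h1 | h1
      · obtain ⟨i, -, hi⟩ := Finset.mem_image.1 h1
        exact ⟨g1 i, (hR1 i _).2 hi.symm⟩
      · obtain ⟨i, -, hi⟩ := Finset.mem_image.1 h1
        exact ⟨g2 i, (hR2 i _).2 hi.symm⟩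
    · obtain ⟨j, hj⟩ := hτ _ _ _ hm
      exact ⟨g3 j, (hR3 j _).2 hj.symm⟩

/-- The complete graph. -/
theorem wins_top {V : Type} [Fintype V] (G : SimpleGraph V) (hG : ∀ x y, x ≠ y → G.Adj x y)
    {q : ℕ} (hq : Fintype.card V = q) (hq0 : 0 < q) : Wins G q := by
  classical
  have : NeZero q := ⟨hq0.ne'⟩
  obtain ⟨e⟩ : Nonempty (V ≃ ZMod q) := Fintype.card_eq.1 (by rw [hq, ZMod.card])
  refine wins_of_right (C := ZMod q) (ZMod.card q) (fun v c => ∑ u, c u = e v) ?_ ?_ ?_ ?_
  · intro v c
    refine ⟨e v - ∑ u, c u + c v, ?_⟩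
    have h := sum_upd_same (id : V → V) Function.injective_id c v (e v - ∑ u, c u + c v)
    simp only [id] at h
    rw [h]
    ring
  · intro v c a b ha hb
    have h1 := sum_upd_same (id : V → V) Function.injective_id c v a
    have h2 := sum_upd_same (id : V → V) Function.injective_id c v b
    simp only [id] at h1 h2
    rw [h1] at ha
    rw [h2] at hb
    linear_combination ha - hb
  · intro v c c' hv hc hr
    have h1 : c = c' := by
      funext u
      by_cases hu : u = v
      · rw [hu]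
        exact hv
      · exact hc u (hG v u (Ne.symm hu))
    rw [← h1]
    exact hr
  · intro c
    exact ⟨e.symm (∑ u, c u), by rw [Equiv.apply_symm_apply]⟩

end Pool.Agent.Hat
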